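import Mathlib

set_option autoImplicit false

/-!
Core combinatorics for the non-embeddability of `ℓ_∞` into `c_0(Γ)`.

The ideal of non-dominating families of monotone functions `ℕ → ℕ` is a σ-ideal.  We iterate it,
prove a good-stem lemma for it and a root lemma for finitely supported functions.
-/

namespace Pool.Agent.Lib.MP_9323ee_an

/-- monotone functions from `ℕ` to `ℕ` -/
abbrev X : Type := {f : ℕ → ℕ // Monotone f}

/-- `f` eventually dominates `h` -/
def Dom (h : ℕ → ℕ) (f : X) : Prop := ∃ N, ∀ k, N ≤ k → h k ≤ f.1 k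

/-- `Y` is a dominating family -/
def Large (Y : Set X) : Prop := ∀ h : ℕ → ℕ, ∃ f ∈ Y, Dom h f

theorem Large.mono {Y Z : Set X} (hY : Large Y) (h : Y ⊆ Z) : Large Z := by
  intro g
  obtain ⟨f, hf, hd⟩ := hY g
  exact ⟨f, h hf, hd⟩

theorem Large.nonempty {Y : Set X} (hY : Large Y) : Y.Nonempty := by
  obtain ⟨f, hf, -⟩ := hY (fun _ => 0)
  exact ⟨f, hf⟩

theorem large_univ : Large Set.univ := by
  intro h
  refine ⟨⟨fun k => ∑ j ∈ Finset.range (k + 1), h j, ?_⟩, Set.mem_univ _, 0, ?_⟩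
  · intro a b hab
    apply Finset.sum_le_sum_of_subset
    intro j hj
    simp only [Finset.mem_range] at hj ⊢
    omega
  · intro k _
    exact Finset.single_le_sum (f := h) (fun _ _ => Nat.zero_le _)
      (Finset.mem_range.2 (Nat.lt_succ_self k))

/-- a countable family of functions has a common eventual bound -/
theorem exists_bound {ι : Type*} [Countable ι] (h : ι → ℕ → ℕ) :
    ∃ g : ℕ → ℕ, ∀ i, ∃ N, ∀ k, N ≤ k → h i k ≤ g k := by
  classical
  obtain ⟨e, he⟩ := exists_injective_nat ι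
  by_cases hne : Nonempty ι
  · obtain ⟨u, hu⟩ := exists_surjective_nat ι
    refine ⟨fun k => ∑ j ∈ Finset.range (k + 1), h (u j) k, ?_⟩
    intro i
    obtain ⟨j, rfl⟩ := hu i
    refine ⟨j, ?_⟩
    intro k hk
    exact Finset.single_le_sum (f := fun j => h (u j) k) (fun _ _ => Nat.zero_le _)
      (by simp only [Finset.mem_range]; omega)
  · refine ⟨fun _ => 0, ?_⟩
    intro i
    exact absurd ⟨i⟩ hne

/-- non-dominating families form a σ-ideal -/
theorem Large.iUnion {ι : Type*} [Countable ι] {Y : ι → Set X} (hY : Large (⋃ i, Y i)) :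
    ∃ i, Large (Y i) := by
  by_contra hcon
  push Not at hcon
  have h1 : ∀ i, ∃ h : ℕ → ℕ, ∀ f ∈ Y i, ¬ Dom h f := by
    intro i
    have := hcon i
    unfold Large at this
    push Not at this
    exact this
  choose h hh using h1
  obtain ⟨g, hg⟩ := exists_bound h
  obtain ⟨f, hf, N, hN⟩ := hY g
  obtain ⟨i, hi⟩ := Set.mem_iUnion.1 hf
  obtain ⟨M, hM⟩ := hg i
  refine hh i f hi ⟨max N M, ?_⟩
  intro k hk
  exact le_trans (hM k (le_trans (le_max_right _ _) hk)) (hN k (le_trans (le_max_left _ _) hk))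

theorem Large.of_cover {ι : Type*} [Countable ι] {Z : Set X} {Y : ι → Set X} (hZ : Large Z)
    (h : ∀ f ∈ Z, ∃ i, f ∈ Y i) : ∃ i, Large (Z ∩ Y i) := by
  apply Large.iUnion
  refine hZ.mono ?_
  intro f hf
  obtain ⟨i, hi⟩ := h f hf
  exact Set.mem_iUnion.2 ⟨i, hf, hi⟩

theorem Large.diff {Y Z : Set X} (hY : Large Y) (hZ : ¬ Large Z) : Large (Y \ Z) := by
  by_contra hcon
  have := hY.of_cover (ι := Bool) (Y := fun b => if b then Z else (Y \ Z)) (by
    intro f hf
    by_cases hfz : f ∈ Z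
    · exact ⟨true, by simpa using hfz⟩
    · exact ⟨false, by simpa using ⟨hf, hfz⟩⟩)
  obtain ⟨b, hb⟩ := this
  cases b with
  | true => exact hZ (hb.mono (by intro f hf; simpa using hf.2))
  | false => exact hcon (hb.mono (by intro f hf; simpa using hf.2))

/-- `f` extends the stem `s` -/
def Ext (s : List ℕ) (f : X) : Prop := (List.range s.length).map f.1 = s

theorem Ext.eq {s : List ℕ} {f g : X} (hf : Ext s f) (hg : Ext s g) {k : ℕ} (hk : k < s.length) :
    f.1 k = g.1 k := by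
  unfold Ext at hf hg
  have h := hf.trans hg.symm
  have h2 := congrArg (fun l => l[k]?) h
  simpa [hk] using h2

theorem ext_self (f : X) (m : ℕ) : Ext ((List.range m).map f.1) f := by
  simp [Ext]

/-- `s` is a good stem for `Y` -/
def Good (s : List ℕ) (Y : Set X) : Prop :=
  ∀ h : ℕ → ℕ, ∃ f ∈ Y, Ext s f ∧ ∀ k, s.length ≤ k → h k ≤ f.1 k

theorem Good.mono {s : List ℕ} {Y Z : Set X} (hY : Good s Y) (h : Y ⊆ Z) : Good s Z := by
  intro g
  obtain ⟨f, hf, hd⟩ := hY g
  exact ⟨f, h hf, hd⟩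

theorem Good.diff {s : List ℕ} {Y Z : Set X} (hY : Good s Y) (hZ : ¬ Large Z) : Good s (Y \ Z) := by
  unfold Large at hZ
  push Not at hZ
  obtain ⟨g, hg⟩ := hZ
  intro h
  obtain ⟨f, hf, he, hk⟩ := hY (fun k => max (h k) (g k))
  refine ⟨f, ⟨hf, ?_⟩, he, fun k hks => le_trans (le_max_left _ _) (hk k hks)⟩
  intro hfZ
  exact hg f hfZ ⟨s.length, fun k hks => le_trans (le_max_right _ _) (hk k hks)⟩

theorem exists_good {Y : Set X} (hY : Large Y) : ∃ s, Good s Y := by
  classical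
  by_contra hcon
  push Not at hcon
  have h1 : ∀ s : List ℕ, ∃ h : ℕ → ℕ, ∀ f ∈ Y, Ext s f → ∃ k, s.length ≤ k ∧ f.1 k < h k := by
    intro s
    have := hcon s
    unfold Good at this
    push Not at this
    obtain ⟨h, hh⟩ := this
    exact ⟨h, fun f hf he => hh f hf he⟩
  choose h hh using h1
  obtain ⟨g, hg⟩ := exists_bound h
  -- functions in `Y` dominating `g`
  have hY1 : Large {f | f ∈ Y ∧ Dom g f} := by
    intro u
    obtain ⟨f, hf, N, hN⟩ := hY (fun k => max (u k) (g k))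
    exact ⟨f, ⟨hf, N, fun k hk => le_trans (le_max_right _ _) (hN k hk)⟩,
      N, fun k hk => le_trans (le_max_left _ _) (hN k hk)⟩
  obtain ⟨N, hN⟩ := hY1.of_cover (ι := ℕ) (Y := fun N => {f | ∀ k, N ≤ k → g k ≤ f.1 k})
    (by
      rintro f ⟨-, N, hN⟩
      exact ⟨N, hN⟩)
  -- fix the stem of length N
  obtain ⟨s0, hs0⟩ := hN.of_cover (ι := List ℕ) (Y := fun s => {f | (List.range N).map f.1 = s})
    (by
      intro f _
      exact ⟨_, rfl⟩)
  set Z : Set X := ({f | f ∈ Y ∧ Dom g f} ∩ {f | ∀ k, N ≤ k → g k ≤ f.1 k}) ∩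
    {f | (List.range N).map f.1 = s0} with hZdef
  -- unbounded coordinate
  have hunb : ∃ k, ∀ B, ∃ f ∈ Z, B < f.1 k := by
    by_contra hb
    push Not at hb
    choose B hB using hb
    obtain ⟨f, hf, M, hM⟩ := hs0 (fun k => B k + 1)
    have h1 := hM M le_rfl
    have h2 := hB M f hf
    simp only at h1
    omega
  let m := Nat.find hunb
  have hm : ∀ B, ∃ f ∈ Z, B < f.1 m := Nat.find_spec hunb
  have hmin : ∀ k, k < m → ∃ B, ∀ f ∈ Z, f.1 k ≤ B := by
    intro k hk
    have := Nat.find_min hunb hk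
    push Not at this
    exact this
  have hNm : N ≤ m := by
    by_contra hlt
    push Not at hlt
    obtain ⟨f0, hf0⟩ := hs0.nonempty
    obtain ⟨f1, hf1, hlt1⟩ := hm (f0.1 m)
    have e0 : (List.range N).map f0.1 = s0 := hf0.2
    have e1 : (List.range N).map f1.1 = s0 := hf1.2
    have e := e0.trans e1.symm
    have e2 := congrArg (fun l => l[m]?) e
    simp [hlt] at e2
    omega
  -- finitely many stems of length m
  have hfin : Set.Finite {s : List ℕ | ∃ f ∈ Z, (List.range m).map f.1 = s} := by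
    have hB : ∃ B, ∀ k, k < m → ∀ f ∈ Z, f.1 k ≤ B := by
      by_cases hm0 : m = 0
      · exact ⟨0, fun k hk => absurd hk (by omega)⟩
      · obtain ⟨B, hB⟩ := hmin (m - 1) (by omega)
        refine ⟨B, fun k hk f hf => le_trans (f.2 (by omega)) (hB f hf)⟩
    obtain ⟨B, hB⟩ := hB
    apply Set.Finite.subset (List.finite_length_eq (Fin (B + 1)) m |>.image (List.map Fin.val))
    rintro s ⟨f, hf, rfl⟩
    refine ⟨(List.range m).map (fun k => Fin.ofNat (B + 1) (f.1 k)), by simp, ?_⟩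
    rw [List.map_map]
    apply List.map_congr_left
    intro k hk
    have hk' : k < m := List.mem_range.1 hk
    have := hB k hk' f hf
    simp only [Function.comp_apply, Fin.ofNat]
    exact Nat.mod_eq_of_lt (by omega)
  -- one stem with unbounded value at m
  have hstem : ∃ s : List ℕ, s.length = m ∧ ∀ B, ∃ f ∈ Z, Ext s f ∧ B < f.1 m := by
    by_contra hno
    push Not at hno
    have h2 : ∀ s ∈ {s : List ℕ | ∃ f ∈ Z, (List.range m).map f.1 = s},
        ∃ B, ∀ f ∈ Z, Ext s f → f.1 m ≤ B := by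
      rintro s ⟨f, hf, rfl⟩
      exact hno _ (by simp)
    choose! B hB using h2
    obtain ⟨C, hC⟩ := (hfin.image B).bddAbove
    obtain ⟨f, hf, hlt⟩ := hm C
    have hmem : (List.range m).map f.1 ∈ {s : List ℕ | ∃ f ∈ Z, (List.range m).map f.1 = s} :=
      ⟨f, hf, rfl⟩
    have h3 := hB _ hmem f hf (ext_self f m)
    have h4 : B ((List.range m).map f.1) ≤ C := hC (Set.mem_image_of_mem B hmem)
    omega
  obtain ⟨s, hsm, hs⟩ := hstem
  obtain ⟨M, hM⟩ := hg s
  obtain ⟨f, hf, he, hlt⟩ := hs (∑ j ∈ Finset.range (M + 1), h s j)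
  obtain ⟨k, hk, hkl⟩ := hh s f hf.1.1.1 he
  rcases le_or_gt M k with hMk | hMk
  · have h5 := hM k hMk
    have h6 : g k ≤ f.1 k := hf.1.2 k (by omega)
    omega
  · have h5 : h s k ≤ ∑ j ∈ Finset.range (M + 1), h s j :=
      Finset.single_le_sum (f := h s) (fun _ _ => Nat.zero_le _)
        (by simp only [Finset.mem_range]; omega)
    have h6 : f.1 m ≤ f.1 k := f.2 (by omega)
    omega

/-- iterated largeness on lists of length `n` -/
def LargeN : ℕ → Set (List X) → Prop
  | 0, S => [] ∈ S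
  | n + 1, S => Large {f | LargeN n {l | f :: l ∈ S}}

theorem LargeN.mono : ∀ {n : ℕ} {S T : Set (List X)}, LargeN n S → S ⊆ T → LargeN n T
  | 0, _, _, h, hST => hST h
  | n + 1, S, T, h, hST => by
    refine Large.mono h ?_
    intro f hf
    exact LargeN.mono (n := n) hf (fun l hl => hST hl)

theorem largeN_univ : ∀ n, LargeN n Set.univ
  | 0 => Set.mem_univ _
  | n + 1 => by
    refine Large.mono large_univ ?_
    intro f _
    exact (largeN_univ n)

theorem LargeN.exists_dom : ∀ {n : ℕ} {S : Set (List X)}, LargeN n S → ∀ h : ℕ → ℕ,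
    ∃ l ∈ S, l.length = n ∧ ∃ N, ∀ k, N ≤ k → ∀ f ∈ l, h k ≤ f.1 k
  | 0, S, hS, h => ⟨[], hS, rfl, 0, by simp⟩
  | n + 1, S, hS, h => by
    obtain ⟨f, hf, N, hN⟩ := hS h
    obtain ⟨l, hl, hlen, M, hM⟩ := LargeN.exists_dom (n := n) hf h
    refine ⟨f :: l, hl, by simp [hlen], max N M, ?_⟩
    intro k hk g hg
    rcases List.mem_cons.1 hg with rfl | hg
    · exact hN k (le_trans (le_max_left _ _) hk)
    · exact hM k (le_trans (le_max_right _ _) hk) g hg

/-- good stems for iterated families -/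
def GoodT : List (List ℕ) → Set (List X) → Prop
  | [], S => [] ∈ S
  | s :: t, S => Good s {f | GoodT t {l | f :: l ∈ S}}

theorem LargeN.exists_goodT : ∀ {n : ℕ} {S : Set (List X)}, LargeN n S →
    ∃ t : List (List ℕ), t.length = n ∧ GoodT t S
  | 0, S, hS => ⟨[], rfl, hS⟩
  | n + 1, S, hS => by
    have h1 : ∀ f ∈ {f | LargeN n {l | f :: l ∈ S}}, ∃ t : List (List ℕ),
        f ∈ {f | t.length = n ∧ GoodT t {l | f :: l ∈ S}} := by
      intro f hf
      obtain ⟨t, ht, hg⟩ := LargeN.exists_goodT (n := n) hf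
      exact ⟨t, ht, hg⟩
    obtain ⟨t, ht⟩ := Large.of_cover hS h1
    obtain ⟨f0, hf0⟩ := ht.nonempty
    obtain ⟨s, hs⟩ := exists_good ht
    refine ⟨s :: t, by simp [hf0.2.1], ?_⟩
    exact hs.mono (fun f hf => hf.2.2)

theorem GoodT.diff : ∀ {t : List (List ℕ)} {S N : Set (List X)}, GoodT t S →
    ¬ LargeN t.length N → GoodT t (S \ N)
  | [], S, N, hS, hN => ⟨hS, hN⟩
  | s :: t, S, N, hS, hN => by
    have h1 : Good s ({f | GoodT t {l | f :: l ∈ S}} \ {f | LargeN t.length {l | f :: l ∈ N}}) :=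
      Good.diff hS hN
    refine h1.mono ?_
    rintro f ⟨hf1, hf2⟩
    exact GoodT.diff (t := t) hf1 hf2

/-- the number of members of `l` whose value at `k` is at most `i` -/
def cnt (l : List X) (k i : ℕ) : ℕ := l.countP (fun f => decide (f.1 k ≤ i))

theorem cnt_cons (f : X) (l : List X) (k i : ℕ) :
    cnt (f :: l) k i = cnt l k i + if f.1 k ≤ i then 1 else 0 := by
  simp [cnt, List.countP_cons]

theorem cnt_le (l : List X) (k i : ℕ) : cnt l k i ≤ l.length := List.countP_le_length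

/-- the interlacing lemma -/
theorem interlace : ∀ (t : List (List ℕ)) (S S' : Set (List X)) (h : ℕ → ℕ),
    GoodT t S → GoodT t S' → ∃ l ∈ S, ∃ l' ∈ S', ∀ k i,
      cnt l' k i ≤ cnt l k i ∧ cnt l k i ≤ cnt l' k i + 1 ∧ (i < h k → cnt l k i = cnt l' k i)
  | [], S, S', h, hS, hS' => ⟨[], hS, [], hS', fun k i => by simp⟩
  | s :: t, S, S', h, hS, hS' => by
    obtain ⟨f, hf, hfe, hfk⟩ := hS h
    obtain ⟨g, hg, hge, hgk⟩ := hS' f.1
    obtain ⟨l, hl, l', hl', H⟩ := interlace t _ _ (fun k => max (h k) (max (f.1 k) (g.1 k))) hf hg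
    refine ⟨f :: l, hl, g :: l', hl', ?_⟩
    intro k i
    obtain ⟨H1, H2, H3⟩ := H k i
    rw [cnt_cons, cnt_cons]
    rcases lt_or_ge k s.length with hk | hk
    · have hfg : f.1 k = g.1 k := hfe.eq hge hk
      rw [hfg]
      refine ⟨by omega, by omega, ?_⟩
      intro hi
      rw [H3 (lt_of_lt_of_le hi (le_max_left _ _))]
    · have h1 : h k ≤ f.1 k := hfk k hk
      have h2 : f.1 k ≤ g.1 k := hgk k hk
      simp only [lt_max_iff] at H3
      by_cases c1 : f.1 k ≤ i
      · by_cases c2 : g.1 k ≤ i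
        · rw [if_pos c1, if_pos c2]
          refine ⟨by omega, by omega, fun hi => by omega⟩
        · rw [if_pos c1, if_neg c2]
          have := H3 (Or.inr (Or.inr (by omega)))
          refine ⟨by omega, by omega, fun hi => by omega⟩
      · have := H3 (Or.inr (Or.inl (by omega)))
        rw [if_neg c1, if_neg (by omega)]
        refine ⟨by omega, by omega, fun hi => by omega⟩

/-- root lemma: a Delta-system lemma for the σ-ideal of non-dominating families -/
theorem exists_root {Γ : Type*} {A : Set X} (hA : Large A) (w : X → (Γ →₀ ℤ)) :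
    ∃ A' ⊆ A, Large A' ∧ ∃ r : Γ →₀ ℤ, (∀ f ∈ A', ∀ γ ∈ r.support, w f γ = r γ) ∧
      ∀ γ, ¬ Large {f | f ∈ A' ∧ w f γ ≠ r γ} := by
  classical
  obtain ⟨m, hm⟩ := hA.of_cover (ι := ℕ) (Y := fun m => {f | (w f).support.card ≤ m})
    (by intro f _; exact ⟨(w f).support.card, le_refl (w f).support.card⟩)
  let P : ℕ → Prop := fun j => ∃ A' ⊆ A ∩ {f | (w f).support.card ≤ m}, Large A' ∧
    ∃ r : Γ →₀ ℤ, (∀ f ∈ A', ∀ γ ∈ r.support, w f γ = r γ) ∧ r.support.card = j
  have hP0 : P 0 := ⟨_, le_rfl, hm, 0, by simp, by simp⟩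
  have hPle : ∀ j, P j → j ≤ m := by
    rintro j ⟨A', hA', hL, r, hr, rfl⟩
    obtain ⟨f, hf⟩ := hL.nonempty
    refine le_trans (Finset.card_le_card ?_) (hA' hf).2
    intro γ hγ
    have h1 := hr f hf γ hγ
    rw [Finsupp.mem_support_iff] at hγ ⊢
    rwa [h1]
  have hmax : ∃ j, P j ∧ ∀ i, P i → i ≤ j := by
    refine ⟨Nat.findGreatest P m, Nat.findGreatest_spec (Nat.zero_le m) hP0, ?_⟩
    intro i hi
    exact Nat.le_findGreatest (hPle i hi) hi
  obtain ⟨j, ⟨A', hA', hL, r, hr, hcard⟩, hmax⟩ := hmax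
  refine ⟨A', fun f hf => (hA' hf).1, hL, r, hr, ?_⟩
  intro γ hγ
  have hγr : r γ = 0 := by
    by_contra hne
    obtain ⟨f, hf, hne'⟩ := hγ.nonempty
    exact hne' (hr f hf γ (Finsupp.mem_support_iff.2 hne))
  obtain ⟨c, hc⟩ := hγ.of_cover (ι := ℤ) (Y := fun c => {f | w f γ = c})
    (by intro f _; exact ⟨_, rfl⟩)
  have hc0 : c ≠ 0 := by
    obtain ⟨f, ⟨hf, hne⟩, hfc⟩ := hc.nonempty
    rw [hγr] at hne
    exact fun h0 => hne (hfc.trans h0)
  have hP1 : P (j + 1) := by
    refine ⟨_, fun f hf => hA' hf.1.1, hc, r.update γ c, ?_, ?_⟩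
    · intro f hf δ hδ
      by_cases hδγ : δ = γ
      · subst hδγ
        rw [Finsupp.update_apply, if_pos rfl]
        exact hf.2
      · rw [Finsupp.update_apply, if_neg hδγ]
        apply hr f hf.1.1
        rw [Finsupp.mem_support_iff] at hδ ⊢
        rwa [Finsupp.update_apply, if_neg hδγ] at hδ
    · rw [Finsupp.support_update_ne_zero _ _ hc0, Finset.card_insert_of_notMem, hcard]
      rw [Finsupp.mem_support_iff, not_not]
      exact hγr
  have := hmax _ hP1
  omega

/-- two lists are close -/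
def Close (l l' : List X) : Prop :=
  ∀ k i, cnt l k i ≤ cnt l' k i + 1 ∧ cnt l' k i ≤ cnt l k i + 1

theorem Close.cons {l l' : List X} (h : Close l l') (f : X) : Close (f :: l) (f :: l') := by
  intro k i
  rw [cnt_cons, cnt_cons]
  obtain ⟨h1, h2⟩ := h k i
  exact ⟨by omega, by omega⟩

theorem close_refl (l : List X) : Close l l := fun k i => ⟨by omega, by omega⟩

/-- the main structural lemma -/
theorem core {Γ : Type*} (L : ℤ) : ∀ (n : ℕ) (v : List X → (Γ →₀ ℤ)) (S : Set (List X)),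
    LargeN n S → (∀ l ∈ S, ∀ l' ∈ S, Close l l' → ∀ γ, |v l γ - v l' γ| ≤ L) →
    ∃ S' ⊆ S, LargeN n S' ∧ ∃ r : Γ →₀ ℤ,
      (∀ l ∈ S', ∀ γ ∈ r.support, v l γ = r γ) ∧
      (∀ l ∈ S', ∀ γ, |v l γ - r γ| ≤ L) ∧
      ∀ γ, ¬ LargeN n {l | l ∈ S' ∧ v l γ ≠ r γ} := by
  classical
  intro n
  induction n with
  | zero =>
    intro v S hS hclose
    refine ⟨{[]}, ?_, rfl, v [], ?_, ?_, ?_⟩
    · intro l hl
      rw [Set.mem_singleton_iff] at hl
      rw [hl]
      exact hS
    · intro l hl γ _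
      rw [Set.mem_singleton_iff] at hl
      rw [hl]
    · intro l hl γ
      rw [Set.mem_singleton_iff] at hl
      rw [hl]
      exact hclose [] hS [] hS (close_refl _) γ
    · intro γ h
      exact h.2 rfl
  | succ n ih =>
    intro v S hS hclose
    have h1 : ∀ f ∈ {f | LargeN n {l | f :: l ∈ S}}, ∃ S' ⊆ {l | f :: l ∈ S}, LargeN n S' ∧
        ∃ r : Γ →₀ ℤ, (∀ l ∈ S', ∀ γ ∈ r.support, v (f :: l) γ = r γ) ∧
        (∀ l ∈ S', ∀ γ, |v (f :: l) γ - r γ| ≤ L) ∧
        ∀ γ, ¬ LargeN n {l | l ∈ S' ∧ v (f :: l) γ ≠ r γ} := by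
      intro f hf
      exact ih (fun l => v (f :: l)) _ hf
        (fun l hl l' hl' hc γ => hclose _ hl _ hl' (hc.cons f) γ)
    choose! T hTS hTL r hr1 hr2 hr3 using h1
    obtain ⟨A, hA, hAL, ρ, hρ1, hρ2⟩ := exists_root hS r
    let B : Set X := {f | f ∈ A ∧ ∃ γ, L < |r f γ - ρ γ|}
    have hB : ¬ Large B := by
      intro hB
      -- stabilise the stems
      have h2 : ∀ f ∈ B, ∃ t : List (List ℕ), f ∈ {f | t.length = n ∧ GoodT t (T f)} := by
        intro f hf
        obtain ⟨t, ht, hg⟩ := (hTL f (hA hf.1)).exists_goodT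
        exact ⟨t, ht, hg⟩
      obtain ⟨t, ht⟩ := hB.of_cover h2
      obtain ⟨s, hs⟩ := exists_good ht
      obtain ⟨f, ⟨⟨hfA, γ, hγ⟩, htl, hfT⟩, hfe, -⟩ := hs (fun _ => 0)
      have hργ : ρ γ = 0 := by
        by_contra hne
        have h3 := hρ1 f hfA γ (Finsupp.mem_support_iff.2 hne)
        rw [h3, sub_self, abs_zero] at hγ
        obtain ⟨l, hl, -⟩ := (hTL f (hA hfA)).exists_dom (fun _ => 0)
        have h4 := hr2 f (hA hfA) l hl γ
        have h5 := abs_nonneg (v (f :: l) γ - r f γ)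
        omega
      rw [hργ, sub_zero] at hγ
      have hs' := hs.diff (hρ2 γ)
      obtain ⟨g, ⟨⟨⟨hgA, -⟩, -, hgT⟩, hgn⟩, hge, hgk⟩ := hs' f.1
      have hgγ : r g γ = 0 := by
        by_contra hne
        exact hgn ⟨hgA, by rw [hργ]; exact hne⟩
      have hgT' : GoodT t (T g \ {l | l ∈ T g ∧ v (g :: l) γ ≠ r g γ}) := by
        apply hgT.diff
        rw [htl]
        exact hr3 g (hA hgA) γ
      obtain ⟨l, hl, l', hl', H⟩ := interlace t _ _ (fun k => max (f.1 k) (g.1 k)) hfT hgT'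
      have hvg : v (g :: l') γ = 0 := by
        by_contra hne
        exact hl'.2 ⟨hl'.1, by rw [hgγ]; exact hne⟩
      have hL0 : 0 ≤ L := by
        have h4 := hr2 f (hA hfA) l hl γ
        exact le_trans (abs_nonneg _) h4
      have hvf : v (f :: l) γ = r f γ := by
        apply hr1 f (hA hfA) l hl
        rw [Finsupp.mem_support_iff]
        intro h0
        rw [h0, abs_zero] at hγ
        omega
      have hcl : Close (f :: l) (g :: l') := by
        intro k i
        rw [cnt_cons, cnt_cons]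
        obtain ⟨H1, H2, H3⟩ := H k i
        rcases lt_or_ge k s.length with hk | hk
        · have hfg : f.1 k = g.1 k := hfe.eq hge hk
          rw [hfg]
          exact ⟨by omega, by omega⟩
        · have h2 : f.1 k ≤ g.1 k := hgk k hk
          simp only [lt_max_iff] at H3
          by_cases c1 : f.1 k ≤ i
          · by_cases c2 : g.1 k ≤ i
            · rw [if_pos c1, if_pos c2]
              exact ⟨by omega, by omega⟩
            · rw [if_pos c1, if_neg c2]
              have := H3 (Or.inr (by omega))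
              exact ⟨by omega, by omega⟩
          · have := H3 (Or.inl (by omega))
            rw [if_neg c1, if_neg (by omega)]
            exact ⟨by omega, by omega⟩
      have hfin := hclose (f :: l) (hTS f (hA hfA) hl) (g :: l') (hTS g (hA hgA) hl'.1) hcl γ
      rw [hvf, hvg, sub_zero] at hfin
      omega
    have hABL : Large (A \ B) := hAL.diff hB
    have hmem : ∀ f l, f :: l ∈ {l | ∃ f ∈ A \ B, ∃ l' ∈ T f, l = f :: l'} ↔
        f ∈ A \ B ∧ l ∈ T f := by
      intro f l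
      constructor
      · rintro ⟨f', hf', l', hl', he⟩
        obtain ⟨rfl, rfl⟩ := List.cons.inj he
        exact ⟨hf', hl'⟩
      · rintro ⟨hf, hl⟩
        exact ⟨f, hf, l, hl, rfl⟩
    refine ⟨{l | ∃ f ∈ A \ B, ∃ l' ∈ T f, l = f :: l'}, ?_, ?_, ρ, ?_, ?_, ?_⟩
    · rintro l ⟨f, hf, l', hl', rfl⟩
      exact hTS f (hA hf.1) hl'
    · refine Large.mono hABL ?_
      intro f hf
      refine LargeN.mono (hTL f (hA hf.1)) ?_
      intro l hl
      exact (hmem f l).2 ⟨hf, hl⟩
    · rintro l ⟨f, hf, l', hl', rfl⟩ γ hγ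
      have h3 := hρ1 f hf.1 γ hγ
      rw [← h3]
      apply hr1 f (hA hf.1) l' hl'
      rw [Finsupp.mem_support_iff] at hγ ⊢
      rwa [h3]
    · rintro l ⟨f, hf, l', hl', rfl⟩ γ
      by_cases h0 : r f γ = 0
      · have h4 := hr2 f (hA hf.1) l' hl' γ
        have hρ0 : ρ γ = 0 := by
          by_contra hne
          have h3 := hρ1 f hf.1 γ (Finsupp.mem_support_iff.2 hne)
          exact hne (h3.symm.trans h0)
        rw [h0] at h4
        rw [hρ0]
        exact h4
      · have h5 := hr1 f (hA hf.1) l' hl' γ (Finsupp.mem_support_iff.2 h0)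
        rw [h5]
        by_contra hlt
        push Not at hlt
        exact hf.2 ⟨hf.1, γ, hlt⟩
    · intro γ hbad
      apply hρ2 γ
      refine Large.mono hbad ?_
      intro f hf
      have hne : ∃ l, l ∈ {l | f :: l ∈ {l | l ∈ {l | ∃ f ∈ A \ B, ∃ l' ∈ T f, l = f :: l'} ∧
          v l γ ≠ ρ γ}} := by
        obtain ⟨l, hl, -⟩ := LargeN.exists_dom hf (fun _ => 0)
        exact ⟨l, hl⟩
      obtain ⟨l0, hl0⟩ := hne
      have hfA := ((hmem f l0).1 hl0.1).1
      refine ⟨hfA.1, ?_⟩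
      intro heq
      apply hr3 f (hA hfA.1) γ
      refine LargeN.mono hf ?_
      rintro l ⟨hl1, hl2⟩
      refine ⟨((hmem f l).1 hl1).2, ?_⟩
      rw [heq]
      exact hl2

end Pool.Agent.Lib.MP_9323ee_an
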