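import Pool.Agent.Lib.MP_9323ee_an.Core

set_option autoImplicit false

/-!
Quantitative form of the non-embeddability of `ℓ_∞` into `c_0(Γ)`.
-/

namespace Pool.Agent.Lib.MP_9323ee_an

/-- For every `n` and every map `F` from the set of sequences with values in `{0, ..., n}` to
`c_0(Γ)` which moves points at (supremum) distance at most `1` by at most `M`, there are two
sequences at distance `n` whose images are at distance at most `2 * M + ε`. -/
theorem quant {Γ : Type*} (n : ℕ) (F : (ℕ → ℕ) → Γ → ℝ)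
    (hF : ∀ x : ℕ → ℕ, (∀ m, x m ≤ n) → ∀ ε : ℝ, 0 < ε → {γ | ε < |F x γ|}.Finite)
    (M ε : ℝ) (hM : 0 ≤ M) (hε : 0 < ε)
    (h : ∀ x y : ℕ → ℕ, (∀ m, x m ≤ n) → (∀ m, y m ≤ n) →
      (∀ m, x m ≤ y m + 1 ∧ y m ≤ x m + 1) → ∀ γ, |F x γ - F y γ| ≤ M) :
    ∃ x y : ℕ → ℕ, (∀ m, x m ≤ n) ∧ (∀ m, y m ≤ n) ∧ (∃ m, x m = n ∧ y m = 0) ∧
      ∀ γ, |F x γ - F y γ| ≤ 2 * M + ε := by
  classical
  obtain ⟨η, hη⟩ : ∃ η : ℝ, η = ε / 6 := ⟨_, rfl⟩
  have hη0 : 0 < η := by rw [hη]; positivity
  let tr : List X → List X := fun l => l.take n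
  let q : List X → ℕ → ℕ := fun l m => cnt (tr l) m.unpair.1 m.unpair.2
  have hq : ∀ l m, q l m ≤ n := fun l m =>
    le_trans (cnt_le _ _ _) (by simp [tr])
  have hfin' : ∀ l : List X, (Function.support
      (fun γ : Γ => if η < |F (q l) γ| then ⌊F (q l) γ / η⌋ else 0)).Finite := by
    intro l
    refine (hF (q l) (hq l) η hη0).subset ?_
    intro γ hγ
    rw [Function.mem_support] at hγ
    by_contra hne
    exact hγ (if_neg hne)
  let v : List X → (Γ →₀ ℤ) := fun l => Finsupp.ofSupportFinite _ (hfin' l)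
  have hv : ∀ l γ, |η * (v l γ : ℝ) - F (q l) γ| ≤ η := by
    intro l γ
    have h1 : v l γ = if η < |F (q l) γ| then ⌊F (q l) γ / η⌋ else 0 := rfl
    rw [h1]
    split_ifs with hc
    · have h2 := Int.floor_le (F (q l) γ / η)
      have h3 := Int.lt_floor_add_one (F (q l) γ / η)
      rw [le_div_iff₀ hη0] at h2
      rw [div_lt_iff₀ hη0] at h3
      rw [abs_sub_le_iff]
      constructor <;> linarith
    · push Not at hc
      rw [Int.cast_zero, mul_zero, zero_sub, abs_neg]
      exact hc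
  obtain ⟨L, hL⟩ : ∃ L : ℤ, L = ⌊(M + 2 * η) / η⌋ := ⟨_, rfl⟩
  have hLη : η * (L : ℝ) ≤ M + 2 * η := by
    have h2 := Int.floor_le ((M + 2 * η) / η)
    rw [le_div_iff₀ hη0, ← hL] at h2
    linarith
  have hS : LargeN n {l : List X | l.length = n} := by
    have hgen : ∀ k : ℕ, LargeN k {l : List X | l.length = k} := by
      intro k
      induction k with
      | zero => exact rfl
      | succ k ih =>
        refine Large.mono large_univ ?_
        intro f _
        refine LargeN.mono ih ?_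
        intro l hl
        have : l.length = k := hl
        simp [this]
    exact hgen n
  have hqe : ∀ l : List X, l.length = n → q l = fun m => cnt l m.unpair.1 m.unpair.2 := by
    intro l hl
    have : tr l = l := List.take_of_length_le hl.le
    funext m
    show cnt (tr l) _ _ = _
    rw [this]
  obtain ⟨S', hS'1, hS', r, -, hr, -⟩ := core (Γ := Γ) L n v _ hS (by
    intro l hl l' hl' hc γ
    have h2 := h (q l) (q l') (hq l) (hq l') (by
      intro m
      rw [hqe l hl, hqe l' hl']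
      exact hc _ _) γ
    have h3 := hv l γ
    have h4 := hv l' γ
    have h5 : |((v l γ - v l' γ : ℤ) : ℝ)| ≤ (M + 2 * η) / η := by
      rw [le_div_iff₀ hη0, Int.cast_sub]
      have e : |(v l γ : ℝ) - v l' γ| * η = |η * (v l γ : ℝ) - η * (v l' γ : ℝ)| := by
        rw [← mul_sub, abs_mul, abs_of_pos hη0, mul_comm]
      rw [e]
      rw [abs_sub_le_iff] at h2 h3 h4 ⊢
      constructor <;> linarith [h2.1, h2.2, h3.1, h3.2, h4.1, h4.2]
    rw [hL, Int.le_floor]
    rw [← Int.cast_abs] at h5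
    exact h5)
  obtain ⟨l, hl, hlen, -⟩ := hS'.exists_dom (fun _ => 0)
  obtain ⟨l', hl', hlen', N, hN⟩ := hS'.exists_dom (fun k => (l.map (fun f => f.1 k)).sum + 1)
  set i : ℕ := (l.map (fun f => f.1 N)).sum with hi
  have hcl : cnt l N i = n := by
    rw [← hlen]
    unfold cnt
    rw [List.countP_eq_length]
    intro f hf
    simp only [decide_eq_true_eq]
    exact List.single_le_sum (fun _ _ => Nat.zero_le _) _ (List.mem_map_of_mem hf)
  have hcl' : cnt l' N i = 0 := by
    unfold cnt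
    rw [List.countP_eq_zero]
    intro f hf
    simp only [decide_eq_true_eq, not_le]
    have := hN N le_rfl f hf
    omega
  refine ⟨q l, q l', hq l, hq l', ⟨Nat.pair N i, ?_, ?_⟩, ?_⟩
  · rw [hqe l hlen]
    simp only [Nat.unpair_pair]
    exact hcl
  · rw [hqe l' hlen']
    simp only [Nat.unpair_pair]
    exact hcl'
  · intro γ
    have e1 := hr l hl γ
    have e2 := hr l' hl' γ
    have e1' : |(v l γ : ℝ) - r γ| ≤ (L : ℝ) := by exact_mod_cast e1
    have e2' : |(v l' γ : ℝ) - r γ| ≤ (L : ℝ) := by exact_mod_cast e2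
    have e3 := hv l γ
    have e4 := hv l' γ
    have e5 : |(v l γ : ℝ) - v l' γ| ≤ 2 * L := by
      rw [abs_sub_le_iff] at e1' e2' ⊢
      constructor <;> linarith [e1'.1, e1'.2, e2'.1, e2'.2]
    have e6 : |η * (v l γ : ℝ) - η * v l' γ| ≤ 2 * (η * L) := by
      rw [← mul_sub, abs_mul, abs_of_pos hη0]
      have := mul_le_mul_of_nonneg_left e5 hη0.le
      linarith
    have hη6 : 6 * η = ε := by rw [hη]; ring
    rw [abs_sub_le_iff] at e3 e4 e6 ⊢
    constructor <;> linarith [e3.1, e3.2, e4.1, e4.2, e6.1, e6.2]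

end Pool.Agent.Lib.MP_9323ee_an
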